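import Mathlib

/-!
# A measure scaling map cannot commute with a cocompact action
-/

set_option autoImplicit false

open MeasureTheory ENNReal

namespace Pool.Agent.H9.JF

/-- Proof. `I = ∫_B κ`. For `y ∈ B`: `∑ γ, κ (T γ (φ y)) = 1`, so
`I = ∫_B κ y * ∑ γ, κ (T γ (φ y)) = ∑ γ, ∫_B κ y * κ (φ (T γ y))
   = ∑ γ, ∫_B κ (T γ⁻¹ y) * κ (φ y)` (substitution `T γ⁻¹`, `B` invariant)
`= ∫_B κ (φ y) = c * I` (`φ` maps `B` onto `B`: `1_B (φ y) = 1_B y`). As `I < ∞`, `c ≠ 1`: `I = 0`. Then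
`μ B = ∫_B ∑ γ, κ (T γ y) = ∑ γ, ∫_B κ = 0`, contradiction. -/
theorem no_scale {E : Type} [MeasurableSpace E] (μ : Measure E) [SFinite μ]
    {Γ : Type} [Group Γ] [Countable Γ] (T : Γ → E → E)
    (hT : ∀ γ, MeasurePreserving (T γ) μ μ) (hT1 : ∀ y, T 1 y = y)
    (hTm : ∀ γ δ y, T (γ * δ) y = T γ (T δ y))
    (φ : E → E) (hφm : Measurable φ) (hcomm : ∀ γ y, φ (T γ y) = T γ (φ y))
    (c : ℝ≥0∞) (hc : c ≠ 1)
    (hφ : ∀ f : E → ℝ≥0∞, Measurable f → ∫⁻ y, f (φ y) ∂μ = c * ∫⁻ y, f y ∂μ)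
    (B : Set E) (hB : MeasurableSet B) (hBT : ∀ γ y, T γ y ∈ B ↔ y ∈ B)
    (hBφ : ∀ y, φ y ∈ B ↔ y ∈ B)
    (κ : E → ℝ≥0∞) (hκ : Measurable κ) (hκ1 : ∀ y ∈ B, ∑' γ, κ (T γ y) = 1)
    (hfin : ∫⁻ y in B, κ y ∂μ ≠ ⊤) (hpos : μ B ≠ 0) : False := by
  classical
  obtain ⟨p, hp⟩ : ∃ p : E → ℝ≥0∞, p = B.indicator κ := ⟨_, rfl⟩
  have hpm : Measurable p := by rw [hp]; exact hκ.indicator hB
  have hp0 : ∀ y, y ∉ B → p y = 0 := fun y hy => by rw [hp, Set.indicator_of_notMem hy]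
  have hp1 : ∀ y, y ∈ B → p y = κ y := fun y hy => by rw [hp, Set.indicator_of_mem hy]
  have hI : ∫⁻ y, p y ∂μ = ∫⁻ y in B, κ y ∂μ := by rw [hp, lintegral_indicator hB]
  have hs : ∀ y ∈ B, ∑' γ, p (T γ y) = 1 := by
    intro y hy
    rw [← hκ1 y hy]
    exact tsum_congr fun γ => hp1 _ ((hBT γ y).2 hy)
  have hinv : ∀ γ y, T γ (T γ⁻¹ y) = y := by
    intro γ y
    rw [← hTm, mul_inv_cancel, hT1]
  have h1 : ∫⁻ y, p y ∂μ = c * ∫⁻ y, p y ∂μ := by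
    calc ∫⁻ y, p y ∂μ = ∫⁻ y, ∑' γ, p y * p (φ (T γ y)) ∂μ := by
          refine lintegral_congr fun y => ?_
          rw [ENNReal.tsum_mul_left]
          by_cases hy : y ∈ B
          · simp only [hcomm]
            rw [hs (φ y) ((hBφ y).2 hy), mul_one]
          · rw [hp0 y hy, zero_mul]
      _ = ∑' γ, ∫⁻ y, p y * p (φ (T γ y)) ∂μ :=
          lintegral_tsum fun γ =>
            (hpm.mul (hpm.comp (hφm.comp (hT γ).measurable))).aemeasurable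
      _ = ∑' γ, ∫⁻ y, p (T γ⁻¹ y) * p (φ y) ∂μ := by
          refine tsum_congr fun γ => ?_
          have h2 := (hT γ⁻¹).lintegral_comp
            (hpm.mul (hpm.comp (hφm.comp (hT γ).measurable)))
          rw [show (fun y => p y * p (φ (T γ y))) = (p * (p ∘ (φ ∘ T γ))) from rfl, ← h2]
          refine lintegral_congr fun y => ?_
          show p (T γ⁻¹ y) * p (φ (T γ (T γ⁻¹ y))) = _
          rw [hinv]
      _ = ∫⁻ y, ∑' γ, p (T γ⁻¹ y) * p (φ y) ∂μ :=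
          (lintegral_tsum fun γ =>
            ((hpm.comp (hT γ⁻¹).measurable).mul (hpm.comp hφm)).aemeasurable).symm
      _ = ∫⁻ y, p (φ y) ∂μ := by
          refine lintegral_congr fun y => ?_
          rw [ENNReal.tsum_mul_right]
          by_cases hy : y ∈ B
          · have h3 : ∑' γ, p (T γ⁻¹ y) = ∑' γ, p (T γ y) :=
              (Equiv.inv Γ).tsum_eq fun γ => p (T γ y)
            rw [h3, hs y hy, one_mul]
          · rw [hp0 (φ y) (fun h => hy ((hBφ y).1 h)), mul_zero]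
      _ = c * ∫⁻ y, p y ∂μ := hφ p hpm
  have h2 : ∫⁻ y, p y ∂μ = 0 := by
    by_contra h
    rw [hI] at h h1
    apply hc
    have h3 : c * ∫⁻ y in B, κ y ∂μ = 1 * ∫⁻ y in B, κ y ∂μ := by rw [← h1, one_mul]
    exact (ENNReal.mul_left_inj h hfin).1 h3
  apply hpos
  have h4 : μ B = ∫⁻ y, ∑' γ, p (T γ y) ∂μ := by
    rw [← lintegral_indicator_one hB]
    refine lintegral_congr fun y => ?_
    by_cases hy : y ∈ B
    · rw [Set.indicator_of_mem hy, hs y hy, Pi.one_apply]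
    · rw [Set.indicator_of_notMem hy]
      symm
      rw [ENNReal.tsum_eq_zero]
      intro γ
      exact hp0 _ fun h => hy ((hBT γ y).1 h)
  have h5 : ∫⁻ y, ∑' γ, p (T γ y) ∂μ = ∑' γ, ∫⁻ y, p (T γ y) ∂μ :=
    lintegral_tsum fun γ => (hpm.comp (hT γ).measurable).aemeasurable
  rw [h4, h5, ENNReal.tsum_eq_zero]
  intro γ
  rw [← h2]
  exact (hT γ).lintegral_comp hpm

end Pool.Agent.H9.JF
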