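import Pool.Agent.H9.JF.Nd

set_option autoImplicit false

open MeasureTheory ENNReal Matrix Module

namespace Pool.Agent.H9.JF

/-- `Measure.map_linearMap_addHaar_eq_smul_addHaar`, `measurePreserving_pi`,
`MeasurePreserving.prod` -/
theorem mp {n k : ℕ} (U : Submodule ℝ (Fin n → ℝ)) (A : U →ₗ[ℝ] U)
    (hA : |LinearMap.det A| = 1) (M : Matrix (Fin n) (Fin n) ℝ) (hM : M.det = 1) :
    MeasurePreserving (fun y : EE n k U => ((fun j => A (y.1 j), fun j => M *ᵥ y.2 j) : EE n k U))
      (mu n k U) (mu n k U) := by
  have h1 : MeasurePreserving (fun u : U => A u) (Measure.addHaar : Measure U) Measure.addHaar := by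
    refine ⟨(LinearMap.continuous_of_finiteDimensional A).measurable, ?_⟩
    have hA0 : LinearMap.det A ≠ 0 := by
      intro h
      rw [h, abs_zero] at hA
      exact zero_ne_one hA
    have h2 := Measure.map_linearMap_addHaar_eq_smul_addHaar (Measure.addHaar : Measure U) hA0
    show Measure.map (⇑A) _ = _
    rw [h2, abs_inv, hA, inv_one, ENNReal.ofReal_one, one_smul]
  have h3 : MeasurePreserving (fun v : Fin n → ℝ => M *ᵥ v) volume volume := by
    refine ⟨(Continuous.matrix_mulVec continuous_const continuous_id).measurable, ?_⟩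
    have h4 : LinearMap.det (Matrix.toLin' M) ≠ 0 := by
      rw [LinearMap.det_toLin', hM]
      exact one_ne_zero
    have h2 := Measure.map_linearMap_addHaar_eq_smul_addHaar (volume : Measure (Fin n → ℝ)) h4
    have h5 : (fun v : Fin n → ℝ => M *ᵥ v) = ⇑(Matrix.toLin' M) := by
      funext v
      rw [Matrix.toLin'_apply]
    rw [h5, h2, LinearMap.det_toLin', hM, inv_one, abs_one, ENNReal.ofReal_one, one_smul]
  have h6 : MeasurePreserving (fun y : Fin k → U => fun j => A (y j))
      (Measure.pi fun _ : Fin k => (Measure.addHaar : Measure U))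
      (Measure.pi fun _ : Fin k => (Measure.addHaar : Measure U)) :=
    measurePreserving_pi _ _ fun _ => h1
  have h7 : MeasurePreserving (fun y : Fin k → (Fin n → ℝ) => fun j => M *ᵥ y j)
      volume volume :=
    measurePreserving_pi _ _ fun _ => h3
  exact h6.prod h7

end Pool.Agent.H9.JF
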