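import Pool.Agent.H9.JE.Main

/-!
# The stabilizer of the last vectors and covectors
-/

set_option autoImplicit false

open Matrix

namespace Pool.Agent.H9.JF

open Pool.Agent.H9.JE (bot)

private theorem mul_bot {m k : ℕ} (M : Matrix (Fin (m + k)) (Fin (m + k)) ℝ)
    (h1 : M * bot m k = bot m k) (i : Fin (m + k)) (j : Fin k) :
    M i (Fin.natAdd m j) = if i = Fin.natAdd m j then 1 else 0 := by
  have h := congrFun (congrFun h1 i) j
  rw [Matrix.mul_apply, Finset.sum_eq_single (Fin.natAdd m j)] at h
  · have e1 : bot m k (Fin.natAdd m j) j = 1 := by simp [bot]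
    rw [e1, mul_one] at h
    rw [h]
    by_cases e : i = Fin.natAdd m j
    · rw [if_pos e, e, e1]
    · rw [if_neg e]
      have e2 : ¬ (i : ℕ) = m + j := fun e3 => e (Fin.ext (by simpa using e3))
      simp [bot, e2]
  · intro l _ hl
    have e2 : ¬ (l : ℕ) = m + j := fun e3 => hl (Fin.ext (by simpa using e3))
    simp [bot, e2]
  · intro hn
    exact absurd (Finset.mem_univ _) hn

/-- A unimodular matrix which, with its transpose, fixes the last `k` coordinate vectors is in the
image of the standard embedding: it is `(x 0; 0 1)`, `det x = 1` (`Matrix.det_fromBlocks_zero₂₁`,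
`finSumFinEquiv`). -/
theorem stab {m k : ℕ}
    (ψ : SpecialLinearGroup (Fin m) ℝ →* SpecialLinearGroup (Fin (m + k)) ℝ)
    (hψ : ∀ (x : SpecialLinearGroup (Fin m) ℝ) (i j : Fin (m + k)),
      (ψ x : Matrix (Fin (m + k)) (Fin (m + k)) ℝ) i j = if h : (i : ℕ) < m ∧ (j : ℕ) < m then
        (x : Matrix (Fin m) (Fin m) ℝ) ⟨i, h.1⟩ ⟨j, h.2⟩ else if i = j then 1 else 0)
    (h : SpecialLinearGroup (Fin (m + k)) ℝ)
    (h1 : (h : Matrix (Fin (m + k)) (Fin (m + k)) ℝ) * bot m k = bot m k)
    (h2 : (h : Matrix (Fin (m + k)) (Fin (m + k)) ℝ)ᵀ * bot m k = bot m k) : h ∈ ψ.range := by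
  have hc := mul_bot _ h1
  have hr := mul_bot _ h2
  have hblk : (h : Matrix (Fin (m + k)) (Fin (m + k)) ℝ).submatrix finSumFinEquiv finSumFinEquiv =
      Matrix.fromBlocks (Matrix.of fun i j : Fin m =>
        (h : Matrix (Fin (m + k)) (Fin (m + k)) ℝ) (Fin.castAdd k i) (Fin.castAdd k j)) 0 0 1 := by
    ext a b
    rcases a with a | a <;> rcases b with b | b
    · simp
    · simp only [Matrix.submatrix_apply, finSumFinEquiv_apply_left, finSumFinEquiv_apply_right,
        Matrix.fromBlocks_apply₁₂, Matrix.zero_apply]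
      rw [hc, if_neg]
      intro e
      have e1 := congrArg Fin.val e
      simp only [Fin.val_castAdd, Fin.val_natAdd] at e1
      have := a.2
      omega
    · simp only [Matrix.submatrix_apply, finSumFinEquiv_apply_left, finSumFinEquiv_apply_right,
        Matrix.fromBlocks_apply₂₁, Matrix.zero_apply]
      have e2 := hr (Fin.castAdd k b) a
      rw [Matrix.transpose_apply] at e2
      rw [e2, if_neg]
      intro e
      have e1 := congrArg Fin.val e
      simp only [Fin.val_castAdd, Fin.val_natAdd] at e1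
      have := b.2
      omega
    · simp only [Matrix.submatrix_apply, finSumFinEquiv_apply_right,
        Matrix.fromBlocks_apply₂₂]
      rw [hc, Matrix.one_apply]
      by_cases e : a = b
      · rw [if_pos e, if_pos (by rw [e])]
      · rw [if_neg e, if_neg]
        intro e1
        exact e (Fin.natAdd_injective _ _ e1)
  have hdet : (Matrix.of fun i j : Fin m =>
        (h : Matrix (Fin (m + k)) (Fin (m + k)) ℝ) (Fin.castAdd k i) (Fin.castAdd k j)).det = 1 := by
    have e1 := congrArg Matrix.det hblk
    rw [Matrix.det_submatrix_equiv_self, Matrix.det_fromBlocks_zero₂₁, Matrix.det_one, mul_one,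
      h.2] at e1
    exact e1.symm
  refine ⟨⟨_, hdet⟩, ?_⟩
  refine Subtype.ext (Matrix.ext fun i j => ?_)
  refine (hψ _ i j).trans ?_
  by_cases hij : (i : ℕ) < m ∧ (j : ℕ) < m
  · rw [dif_pos hij]
    rfl
  · rw [dif_neg hij]
    by_cases hj : (j : ℕ) < m
    · have hi : ¬ (i : ℕ) < m := fun e => hij ⟨e, hj⟩
      have e0 : (i : ℕ) - m < k := by
        have := i.2
        omega
      have e1 : i = Fin.natAdd m ⟨(i : ℕ) - m, e0⟩ := by
        apply Fin.ext
        simp only [Fin.val_natAdd]
        omega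
      have e2 := hr j ⟨(i : ℕ) - m, e0⟩
      rw [← e1, Matrix.transpose_apply] at e2
      refine Eq.trans ?_ e2.symm
      by_cases e3 : i = j
      · rw [if_pos e3, if_pos e3.symm]
      · rw [if_neg e3, if_neg (fun e4 => e3 e4.symm)]
    · have e0 : (j : ℕ) - m < k := by
        have := j.2
        omega
      have e1 : j = Fin.natAdd m ⟨(j : ℕ) - m, e0⟩ := by
        apply Fin.ext
        simp only [Fin.val_natAdd]
        omega
      have e2 := hc i ⟨(j : ℕ) - m, e0⟩
      rw [← e1] at e2
      exact e2.symm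

end Pool.Agent.H9.JF
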