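import Pool.Agent.H9.JF.Nd

set_option autoImplicit false

open MeasureTheory ENNReal Matrix Module

namespace Pool.Agent.H9.JF

/-- finite on compact sets, positive on nonempty open sets, s-finite (as instances or facts) -/
theorem mu_facts {n k : ℕ} (U : Submodule ℝ (Fin n → ℝ)) :
    IsFiniteMeasureOnCompacts (mu n k U) ∧ (mu n k U).IsOpenPosMeasure ∧ SFinite (mu n k U) := by
  unfold mu
  have h1 : (Measure.pi fun _ : Fin k => (Measure.addHaar : Measure U)).IsOpenPosMeasure :=
    Measure.pi.isOpenPosMeasure _
  have h2 : (volume : Measure (Fin k → (Fin n → ℝ))).IsOpenPosMeasure := inferInstance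
  refine ⟨?_, ?_, ?_⟩
  · infer_instance
  · exact Measure.prod.instIsOpenPosMeasure
  · infer_instance

end Pool.Agent.H9.JF
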