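import Pool.Agent.H9.JF.Nd

set_option autoImplicit false

open MeasureTheory ENNReal Matrix Module

namespace Pool.Agent.H9.JF

/-- `Measure.map_addHaar_smul` on both factors (`finrank = k * finrank U`, `k * n`),
`Measure.map_prod_map`; `c = 2 ^ (k (n - finrank U))` or its inverse. -/
theorem sc {n k : ℕ} (hk : 0 < k) (U : Submodule ℝ (Fin n → ℝ)) (hU : finrank ℝ U < n) :
    ∃ c : ℝ≥0∞, c ≠ 1 ∧ ∀ f : EE n k U → ℝ≥0∞, Measurable f →
      ∫⁻ y, f ((2 : ℝ) • y.1, (2 : ℝ)⁻¹ • y.2) ∂(mu n k U) = c * ∫⁻ y, f y ∂(mu n k U) := by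
  have h1 := Measure.map_addHaar_smul (Measure.pi fun _ : Fin k => (Measure.addHaar : Measure U))
    (two_ne_zero (α := ℝ))
  have h2 := Measure.map_addHaar_smul (volume : Measure (Fin k → (Fin n → ℝ)))
    (inv_ne_zero (two_ne_zero (α := ℝ)))
  have e1 : finrank ℝ (Fin k → U) = k * finrank ℝ U := by
    simp [Module.finrank_pi_fintype]
  have e2 : finrank ℝ (Fin k → (Fin n → ℝ)) = k * n := by
    simp [Module.finrank_pi_fintype]
  rw [e1] at h1
  rw [e2] at h2
  refine ⟨ENNReal.ofReal |((2 : ℝ) ^ (k * finrank ℝ U))⁻¹| *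
    ENNReal.ofReal |(((2 : ℝ)⁻¹) ^ (k * n))⁻¹|, ?_, fun f hf => ?_⟩
  · rw [← ENNReal.ofReal_mul (abs_nonneg _), ← abs_mul, ← ENNReal.ofReal_one]
    intro h
    have h3 := (ENNReal.ofReal_eq_ofReal_iff (abs_nonneg _) zero_le_one).1 h
    rw [inv_pow, inv_inv, abs_of_pos (by positivity), inv_mul_eq_div,
      div_eq_one_iff_eq (by positivity)] at h3
    have h4 : (k * n) = k * finrank ℝ U := by
      have h5 := pow_right_injective₀ (two_pos (α := ℝ)) (by norm_num : (2 : ℝ) ≠ 1) h3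
      exact h5
    exact hU.ne' (Nat.eq_of_mul_eq_mul_left hk h4)
  · have hm1 : Measurable fun y : Fin k → U => (2 : ℝ) • y := (continuous_const_smul _).measurable
    have hm2 : Measurable fun y : Fin k → (Fin n → ℝ) => (2 : ℝ)⁻¹ • y :=
      (continuous_const_smul _).measurable
    have h3 := Measure.map_prod_map (Measure.pi fun _ : Fin k => (Measure.addHaar : Measure U))
      (volume : Measure (Fin k → (Fin n → ℝ))) hm1 hm2
    rw [h1, h2] at h3
    have h4 : ∫⁻ y, f ((2 : ℝ) • y.1, (2 : ℝ)⁻¹ • y.2) ∂(mu n k U) =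
        ∫⁻ y, f y ∂(Measure.map (Prod.map (fun y : Fin k → U => (2 : ℝ) • y)
          (fun y : Fin k → (Fin n → ℝ) => (2 : ℝ)⁻¹ • y)) (mu n k U)) :=
      (lintegral_map hf (hm1.prodMap hm2)).symm
    rw [h4]
    unfold mu
    rw [← h3, Measure.prod_smul_left, Measure.prod_smul_right, smul_smul,
      lintegral_smul_measure, smul_eq_mul]

end Pool.Agent.H9.JF
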