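import Mathlib

/-!
# A weight with sum one
-/

set_option autoImplicit false

open MeasureTheory ENNReal

namespace Pool.Agent.H9.JF

/-- Proof. `κ y = 1_K(y) / S(y)`, `S(y) = ∑ γ, 1_K(T γ y)` (finite and `≥ 1` on `B`,
`S (T δ y) = S y`); `∫_B κ ≤ μ K`. -/
theorem exists_weight {E : Type} [TopologicalSpace E] [T2Space E] [MeasurableSpace E] [BorelSpace E]
    (μ : Measure E) [IsFiniteMeasureOnCompacts μ]
    {Γ : Type} [Group Γ] [Countable Γ] (T : Γ → E → E) (hTc : ∀ γ, Measurable (T γ))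
    (hTm : ∀ γ δ y, T (γ * δ) y = T γ (T δ y))
    (B : Set E) (K : Set E) (hK : IsCompact K) (hcov : ∀ y ∈ B, ∃ γ, T γ y ∈ K)
    (hfin : ∀ y ∈ B, {γ | T γ y ∈ K}.Finite) :
    ∃ κ : E → ℝ≥0∞, Measurable κ ∧ (∀ y ∈ B, ∑' γ, κ (T γ y) = 1) ∧ ∫⁻ y in B, κ y ∂μ ≠ ⊤ := by
  classical
  have hKm : MeasurableSet K := hK.isClosed.measurableSet
  obtain ⟨q, hq⟩ : ∃ q : E → ℝ≥0∞, q = K.indicator fun _ => (1 : ℝ≥0∞) := ⟨_, rfl⟩
  have hqm : Measurable q := by rw [hq]; exact measurable_const.indicator hKm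
  obtain ⟨S, hS⟩ : ∃ S : E → ℝ≥0∞, S = fun y => ∑' γ, q (T γ y) := ⟨_, rfl⟩
  have hSd : ∀ y, S y = ∑' γ, q (T γ y) := fun y => by rw [hS]
  have hSm : Measurable S := by
    rw [hS]
    exact Measurable.tsum fun γ => hqm.comp (hTc γ)
  have hST : ∀ δ y, S (T δ y) = S y := by
    intro δ y
    rw [hSd, hSd, ← (Equiv.mulRight δ).tsum_eq fun γ => q (T γ y)]
    refine tsum_congr fun γ => ?_
    rw [Equiv.coe_mulRight, hTm]
  have hS1 : ∀ y ∈ B, 1 ≤ S y := by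
    intro y hy
    obtain ⟨γ, hγ⟩ := hcov y hy
    rw [hSd]
    refine le_trans ?_ (ENNReal.le_tsum γ)
    rw [hq, Set.indicator_of_mem hγ]
  have hSf : ∀ y ∈ B, S y ≠ ⊤ := by
    intro y hy
    rw [hSd, tsum_eq_sum (s := (hfin y hy).toFinset) (fun γ hγ => ?_)]
    · refine (ENNReal.sum_lt_top.2 fun γ _ => ?_).ne
      rw [hq]
      refine lt_of_le_of_lt (Set.indicator_le_self' (fun _ _ => zero_le_one) _) ENNReal.one_lt_top
    · rw [hq, Set.indicator_of_notMem]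
      intro h
      exact hγ ((hfin y hy).mem_toFinset.2 h)
  refine ⟨fun y => q y / S y, hqm.div hSm, fun y hy => ?_, ?_⟩
  · show ∑' γ, q (T γ y) / S (T γ y) = 1
    simp only [hST, div_eq_mul_inv]
    rw [ENNReal.tsum_mul_right, ← hSd]
    exact ENNReal.mul_inv_cancel (lt_of_lt_of_le zero_lt_one (hS1 y hy)).ne' (hSf y hy)
  · refine (lt_of_le_of_lt (setLIntegral_mono hqm fun y hy => ?_)
      (lt_of_le_of_lt (setLIntegral_le_lintegral B q) ?_)).ne
    · exact ENNReal.div_le_of_le_mul (le_mul_of_one_le_right zero_le (hS1 y hy))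
    · rw [hq, lintegral_indicator hKm, setLIntegral_const, one_mul]
      exact hK.measure_lt_top

end Pool.Agent.H9.JF
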