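import Pool.Agent.H9.IH.Top
import Pool.Agent.H9.JF.Na
import Pool.Agent.H9.JF.Nw
import Pool.Agent.H9.JF.Nb
import Pool.Agent.H9.JF.Ns
import Pool.Agent.H9.JF.Nf
import Pool.Agent.H9.JF.Nc

/-!
# Invariant subspaces with determinants `1` and `-1`, standard embedding
-/

set_option autoImplicit false

open MeasureTheory ENNReal Matrix Module

namespace Pool.Agent.H9.JF

open Pool.Agent.H9.JE (bot bot_bot exists_sl std_fix)

/-- the matrix with columns `y.1 j` -/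
def XX {n k : ℕ} {U : Submodule ℝ (Fin n → ℝ)} (y : EE n k U) : Matrix (Fin n) (Fin k) ℝ :=
  Matrix.of fun a j => (y.1 j : Fin n → ℝ) a

/-- the matrix with columns `y.2 j` -/
def YY {n k : ℕ} {U : Submodule ℝ (Fin n → ℝ)} (y : EE n k U) : Matrix (Fin n) (Fin k) ℝ :=
  Matrix.of fun a j => y.2 j a

theorem continuous_XX {n k : ℕ} {U : Submodule ℝ (Fin n → ℝ)} :
    Continuous (XX : EE n k U → Matrix (Fin n) (Fin k) ℝ) := by
  refine continuous_matrix fun a j => ?_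
  exact (continuous_apply a).comp (continuous_subtype_val.comp
    ((continuous_apply j).comp continuous_fst))

theorem continuous_YY {n k : ℕ} {U : Submodule ℝ (Fin n → ℝ)} :
    Continuous (YY : EE n k U → Matrix (Fin n) (Fin k) ℝ) := by
  refine continuous_matrix fun a j => ?_
  exact (continuous_apply a).comp ((continuous_apply j).comp continuous_snd)

theorem ext_XY {n k : ℕ} {U : Submodule ℝ (Fin n → ℝ)} {y z : EE n k U} (h1 : XX y = XX z)
    (h2 : YY y = YY z) : y = z := by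
  refine Prod.ext (funext fun j => Subtype.ext (funext fun a => ?_))
    (funext fun j => funext fun a => ?_)
  · exact congrFun (congrFun h1 a) j
  · exact congrFun (congrFun h2 a) j

/-- both matrices, as a linear map -/
def XY (n k : ℕ) (U : Submodule ℝ (Fin n → ℝ)) :
    EE n k U →ₗ[ℝ] Matrix (Fin n) (Fin k) ℝ × Matrix (Fin n) (Fin k) ℝ where
  toFun y := (XX y, YY y)
  map_add' _ _ := rfl
  map_smul' _ _ := rfl

theorem closed_XY (n k : ℕ) (U : Submodule ℝ (Fin n → ℝ)) :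
    Topology.IsClosedEmbedding (XY n k U) := by
  refine LinearMap.isClosedEmbedding_of_injective (LinearMap.ker_eq_bot.2 fun y z h => ?_)
  exact ext_XY (congrArg Prod.fst h) (congrArg Prod.snd h)

/-- `k` independent vectors of `U` and `k` covectors dual to them -/
theorem exists_dual {n k : ℕ} (U : Submodule ℝ (Fin n → ℝ)) (hk : k ≤ finrank ℝ U) :
    ∃ y : EE n k U, (XX y)ᵀ * YY y = 1 := by
  classical
  obtain ⟨u, hu⟩ : ∃ u : Fin k → U, LinearIndependent ℝ u :=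
    ⟨_, (finBasis ℝ U).linearIndependent.comp (Fin.castLE hk) (Fin.castLE_injective hk)⟩
  obtain ⟨v, hv⟩ : ∃ v : Fin k → (Fin n → ℝ), v = fun j => (u j : Fin n → ℝ) := ⟨_, rfl⟩
  have hv1 : LinearIndependent ℝ v := by
    rw [hv]
    exact hu.map' U.subtype (Submodule.ker_subtype U)
  have hf : LinearMap.ker (Fintype.linearCombination ℝ v) = ⊥ := by
    rw [LinearMap.ker_eq_bot]
    exact LinearIndependent.fintypeLinearCombination_injective hv1
  obtain ⟨g, hg⟩ := LinearMap.exists_leftInverse_of_injective _ hf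
  refine ⟨(u, fun j a => LinearMap.toMatrix' g j a), ?_⟩
  have h1 : LinearMap.toMatrix' g * LinearMap.toMatrix' (Fintype.linearCombination ℝ v) = 1 := by
    rw [← LinearMap.toMatrix'_comp, hg, LinearMap.toMatrix'_id]
  have h2 : XX ((u, fun j a => LinearMap.toMatrix' g j a) : EE n k U) =
      LinearMap.toMatrix' (Fintype.linearCombination ℝ v) := by
    ext a j
    rw [LinearMap.toMatrix'_apply]
    rw [Fintype.linearCombination_apply_single, one_smul, hv]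
    rfl
  have h3 : YY ((u, fun j a => LinearMap.toMatrix' g j a) : EE n k U) =
      (LinearMap.toMatrix' g)ᵀ := by
    ext a j
    rfl
  rw [h2, h3, ← Matrix.transpose_mul, h1, Matrix.transpose_one]

private lemma lc (n : ℕ) : LocallyCompactSpace (SpecialLinearGroup (Fin n) ℝ) := by
  have : LocallyCompactSpace (Matrix (Fin n) (Fin n) ℝ) :=
    inferInstanceAs (LocallyCompactSpace (Fin n → Fin n → ℝ))
  exact SpecialLinearGroup.isClosedEmbedding_val.locallyCompactSpace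

private lemma t2 (n : ℕ) : T2Space (SpecialLinearGroup (Fin n) ℝ) :=
  SpecialLinearGroup.isClosedEmbedding_val.isEmbedding.t2Space

private lemma sc2 (n : ℕ) : SecondCountableTopology (SpecialLinearGroup (Fin n) ℝ) := by
  have : SecondCountableTopology (Matrix (Fin n) (Fin n) ℝ) :=
    inferInstanceAs (SecondCountableTopology (Fin n → Fin n → ℝ))
  exact (SpecialLinearGroup.isClosedEmbedding_val
    (R := ℝ) (n := Fin n)).isEmbedding.secondCountableTopology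

private theorem countable_of_pd {G : Type} [Group G] [TopologicalSpace G]
    [SigmaCompactSpace G] (H Γ : Subgroup G)
    (hpd : ∀ K : Set G, IsCompact K → {γ : Γ | ∃ g ∈ K, ∃ h ∈ H, (γ : G) * g * h ∈ K}.Finite) :
    Countable Γ := by
  have hcov : (Set.univ : Set Γ) ⊆ ⋃ n : ℕ, {γ : Γ | ∃ g ∈ compactCovering G n,
      ∃ h ∈ H, (γ : G) * g * h ∈ compactCovering G n} := by
    intro γ _
    obtain ⟨n, hn⟩ := exists_mem_compactCovering (1 : G)
    obtain ⟨m, hm⟩ := exists_mem_compactCovering (γ : G)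
    refine Set.mem_iUnion.2 ⟨max n m, 1, compactCovering_subset G (le_max_left _ _) hn, 1,
      H.one_mem, ?_⟩
    rw [mul_one, mul_one]
    exact compactCovering_subset G (le_max_right _ _) hm
  rw [← Set.countable_univ_iff]
  exact (Set.countable_iUnion fun n =>
    (hpd _ (isCompact_compactCovering G n)).countable).mono hcov

theorem det_core {m k : ℕ} (hm : 0 < m) (hk : 0 < k)
    (H Γ : Subgroup (SpecialLinearGroup (Fin (m + k)) ℝ))
    (hfix : ∀ h ∈ H, (h : Matrix (Fin (m + k)) (Fin (m + k)) ℝ) * bot m k = bot m k ∧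
      (h : Matrix (Fin (m + k)) (Fin (m + k)) ℝ)ᵀ * bot m k = bot m k)
    (hstab : ∀ h : SpecialLinearGroup (Fin (m + k)) ℝ,
      (h : Matrix (Fin (m + k)) (Fin (m + k)) ℝ) * bot m k = bot m k →
      (h : Matrix (Fin (m + k)) (Fin (m + k)) ℝ)ᵀ * bot m k = bot m k → h ∈ H)
    (hpd : ∀ K : Set (SpecialLinearGroup (Fin (m + k)) ℝ), IsCompact K →
      {γ : Γ | ∃ g ∈ K, ∃ h ∈ H, (γ : SpecialLinearGroup (Fin (m + k)) ℝ) * g * h ∈ K}.Finite)
    (hcov : ∃ C : Set (SpecialLinearGroup (Fin (m + k)) ℝ), IsCompact C ∧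
      ∀ g, ∃ γ ∈ Γ, ∃ h ∈ H, γ * g * h ∈ C)
    (U : Submodule ℝ (Fin (m + k) → ℝ)) (hkU : k ≤ finrank ℝ U) (hU : finrank ℝ U < m + k)
    (A : Γ → U →ₗ[ℝ] U)
    (hA : ∀ (γ : Γ) (u : U), (A γ u : Fin (m + k) → ℝ) =
      ((γ : SpecialLinearGroup (Fin (m + k)) ℝ) : Matrix (Fin (m + k)) (Fin (m + k)) ℝ) *ᵥ
        (u : Fin (m + k) → ℝ))
    (hdet : ∀ γ, |LinearMap.det (A γ)| = 1) : False := by
  classical
  have := lc (m + k)
  have := t2 (m + k)
  have := sc2 (m + k)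
  have hcount : Countable Γ := countable_of_pd H Γ hpd
  obtain ⟨C, hC, hCcov⟩ := hcov
  obtain ⟨hμ1, hμ2, hμ3⟩ := mu_facts (k := k) U
  -- the action
  obtain ⟨T, hT⟩ : ∃ T : Γ → EE (m + k) k U → EE (m + k) k U, T = fun γ y =>
    (fun j => A γ (y.1 j), fun j => (((γ⁻¹ : Γ) : SpecialLinearGroup (Fin (m + k)) ℝ) :
      Matrix (Fin (m + k)) (Fin (m + k)) ℝ)ᵀ *ᵥ y.2 j) := ⟨_, rfl⟩
  have hTX : ∀ γ y, XX (T γ y) = ((γ : SpecialLinearGroup (Fin (m + k)) ℝ) :
      Matrix (Fin (m + k)) (Fin (m + k)) ℝ) * XX y := by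
    intro γ y
    ext a j
    rw [hT]
    show (A γ (y.1 j) : Fin (m + k) → ℝ) a = _
    rw [hA, Matrix.mul_apply]
    rfl
  have hTY : ∀ γ y, YY (T γ y) = (((γ⁻¹ : Γ) : SpecialLinearGroup (Fin (m + k)) ℝ) :
      Matrix (Fin (m + k)) (Fin (m + k)) ℝ)ᵀ * YY y := by
    intro γ y
    ext a j
    rw [hT, Matrix.mul_apply]
    rfl
  have hγγ : ∀ g : SpecialLinearGroup (Fin (m + k)) ℝ,
      (g : Matrix (Fin (m + k)) (Fin (m + k)) ℝ)ᵀ *
        ((g⁻¹ : SpecialLinearGroup (Fin (m + k)) ℝ) :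
          Matrix (Fin (m + k)) (Fin (m + k)) ℝ)ᵀ = 1 := by
    intro g
    rw [← Matrix.transpose_mul, ← Matrix.SpecialLinearGroup.coe_mul, inv_mul_cancel,
      Matrix.SpecialLinearGroup.coe_one, Matrix.transpose_one]
  have hγγ' : ∀ g : SpecialLinearGroup (Fin (m + k)) ℝ,
      ((g⁻¹ : SpecialLinearGroup (Fin (m + k)) ℝ) :
          Matrix (Fin (m + k)) (Fin (m + k)) ℝ)ᵀ *
        (g : Matrix (Fin (m + k)) (Fin (m + k)) ℝ)ᵀ = 1 := by
    intro g
    rw [← Matrix.transpose_mul, ← Matrix.SpecialLinearGroup.coe_mul, mul_inv_cancel,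
      Matrix.SpecialLinearGroup.coe_one, Matrix.transpose_one]
  have hP : ∀ γ y, (XX (T γ y))ᵀ * YY (T γ y) = (XX y)ᵀ * YY y := by
    intro γ y
    rw [hTX, hTY, Matrix.transpose_mul, Matrix.mul_assoc, ← Matrix.mul_assoc _ _ (YY y)]
    have := hγγ (γ : SpecialLinearGroup (Fin (m + k)) ℝ)
    rw [Subgroup.coe_inv, this, Matrix.one_mul]
  have hPc : Continuous fun y : EE (m + k) k U => (XX y)ᵀ * YY y :=
    (continuous_XX.matrix_transpose).matrix_mul continuous_YY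
  have hT1 : ∀ y, T 1 y = y := by
    intro y
    refine ext_XY ?_ ?_
    · rw [hTX, Subgroup.coe_one, Matrix.SpecialLinearGroup.coe_one, Matrix.one_mul]
    · rw [hTY, inv_one, Subgroup.coe_one, Matrix.SpecialLinearGroup.coe_one,
        Matrix.transpose_one, Matrix.one_mul]
  have hTm : ∀ γ δ y, T (γ * δ) y = T γ (T δ y) := by
    intro γ δ y
    refine ext_XY ?_ ?_
    · rw [hTX, hTX, hTX, Subgroup.coe_mul, Matrix.SpecialLinearGroup.coe_mul, Matrix.mul_assoc]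
    · rw [hTY, hTY, hTY, _root_.mul_inv_rev, Subgroup.coe_mul, Matrix.SpecialLinearGroup.coe_mul,
        Matrix.transpose_mul, Matrix.mul_assoc]
  have hTc : ∀ γ, Continuous (T γ) := by
    intro γ
    rw [hT]
    refine Continuous.prodMk ?_ ?_
    · refine continuous_pi fun j => ?_
      exact (LinearMap.continuous_of_finiteDimensional (A γ)).comp
        ((continuous_apply j).comp continuous_fst)
    · refine continuous_pi fun j => ?_
      exact Continuous.matrix_mulVec continuous_const ((continuous_apply j).comp continuous_snd)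
  -- the scaling
  obtain ⟨φ, hφ⟩ : ∃ φ : EE (m + k) k U → EE (m + k) k U,
    φ = fun y => ((2 : ℝ) • y.1, (2 : ℝ)⁻¹ • y.2) := ⟨_, rfl⟩
  have hφX : ∀ y, XX (φ y) = (2 : ℝ) • XX y := by
    intro y
    rw [hφ]
    rfl
  have hφY : ∀ y, YY (φ y) = (2 : ℝ)⁻¹ • YY y := by
    intro y
    rw [hφ]
    rfl
  have hφc : Continuous φ := by
    rw [hφ]
    exact (continuous_fst.const_smul (2 : ℝ)).prodMk (continuous_snd.const_smul ((2 : ℝ)⁻¹))
  have hφT : ∀ γ y, φ (T γ y) = T γ (φ y) := by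
    intro γ y
    refine ext_XY ?_ ?_
    · rw [hφX, hTX, hTX, hφX, Matrix.mul_smul]
    · rw [hφY, hTY, hTY, hφY, Matrix.mul_smul]
  have hφP : ∀ y, (XX (φ y))ᵀ * YY (φ y) = (XX y)ᵀ * YY y := by
    intro y
    rw [hφX, hφY, Matrix.transpose_smul, Matrix.smul_mul, Matrix.mul_smul, smul_smul,
      mul_inv_cancel₀ (by norm_num), one_smul]
  -- the neighbourhood
  obtain ⟨O, hO, hO1, hOdet⟩ : ∃ O : Set (Matrix (Fin k) (Fin k) ℝ), IsCompact O ∧
      (1 : Matrix (Fin k) (Fin k) ℝ) ∈ interior O ∧ ∀ a ∈ O, a.det ≠ 0 := by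
    have : LocallyCompactSpace (Matrix (Fin k) (Fin k) ℝ) :=
      inferInstanceAs (LocallyCompactSpace (Fin k → Fin k → ℝ))
    have h1 : {a : Matrix (Fin k) (Fin k) ℝ | a.det ≠ 0} ∈ nhds (1 : Matrix (Fin k) (Fin k) ℝ) := by
      refine IsOpen.mem_nhds ?_ ?_
      · exact isOpen_ne_fun continuous_id.matrix_det continuous_const
      · simp
    obtain ⟨O, h2, h3, h4⟩ := local_compact_nhds h1
    exact ⟨O, h4, mem_interior_iff_mem_nhds.2 h2, fun a ha => h3 ha⟩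
  obtain ⟨B, hB⟩ : ∃ B : Set (EE (m + k) k U), B = {y | (XX y)ᵀ * YY y ∈ O} := ⟨_, rfl⟩
  have hBm : MeasurableSet B := by
    rw [hB]
    exact (hO.isClosed.preimage hPc).measurableSet
  have hBd : ∀ y, y ∈ B ↔ (XX y)ᵀ * YY y ∈ O := by
    intro y
    rw [hB]
    rfl
  obtain ⟨K, hK⟩ : ∃ K : Set (EE (m + k) k U), K = (XY (m + k) k U) ⁻¹'
      ((fun q : SpecialLinearGroup (Fin (m + k)) ℝ × Matrix (Fin k) (Fin k) ℝ =>
        ((q.1 : Matrix (Fin (m + k)) (Fin (m + k)) ℝ) * bot m k,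
          ((q.1⁻¹ : SpecialLinearGroup (Fin (m + k)) ℝ) :
            Matrix (Fin (m + k)) (Fin (m + k)) ℝ)ᵀ * (bot m k * q.2))) '' (C ×ˢ O)) := ⟨_, rfl⟩
  have hKc : IsCompact K := by
    rw [hK]
    refine (closed_XY (m + k) k U).isCompact_preimage ((hC.prod hO).image ?_)
    have h1 : Continuous fun g : SpecialLinearGroup (Fin (m + k)) ℝ =>
        (g : Matrix (Fin (m + k)) (Fin (m + k)) ℝ) := continuous_subtype_val
    have h2 : Continuous fun q : SpecialLinearGroup (Fin (m + k)) ℝ × Matrix (Fin k) (Fin k) ℝ =>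
        (q.1 : Matrix (Fin (m + k)) (Fin (m + k)) ℝ) := h1.comp continuous_fst
    have h3 : Continuous fun q : SpecialLinearGroup (Fin (m + k)) ℝ × Matrix (Fin k) (Fin k) ℝ =>
        ((q.1⁻¹ : SpecialLinearGroup (Fin (m + k)) ℝ) :
            Matrix (Fin (m + k)) (Fin (m + k)) ℝ) := h1.comp (continuous_inv.comp continuous_fst)
    exact (h2.matrix_mul continuous_const).prodMk
      (h3.matrix_transpose.matrix_mul (continuous_const.matrix_mul continuous_snd))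
  have hKd : ∀ y, y ∈ K ↔ ∃ c ∈ C, ∃ a ∈ O,
      XX y = (c : Matrix (Fin (m + k)) (Fin (m + k)) ℝ) * bot m k ∧
      YY y = ((c⁻¹ : SpecialLinearGroup (Fin (m + k)) ℝ) :
            Matrix (Fin (m + k)) (Fin (m + k)) ℝ)ᵀ * (bot m k * a) := by
    intro y
    rw [hK]
    constructor
    · rintro ⟨⟨c, a⟩, ⟨hc, ha⟩, h⟩
      exact ⟨c, hc, a, ha, (congrArg Prod.fst h).symm, (congrArg Prod.snd h).symm⟩
    · rintro ⟨c, hc, a, ha, h1, h2⟩
      exact ⟨(c, a), ⟨hc, ha⟩, Prod.ext h1.symm h2.symm⟩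
  -- the group element
  have hg : ∀ y ∈ B, ∃ g : SpecialLinearGroup (Fin (m + k)) ℝ,
      (g : Matrix (Fin (m + k)) (Fin (m + k)) ℝ) * bot m k = XX y ∧
      ((g⁻¹ : SpecialLinearGroup (Fin (m + k)) ℝ) :
            Matrix (Fin (m + k)) (Fin (m + k)) ℝ)ᵀ * (bot m k * ((XX y)ᵀ * YY y)) = YY y := by
    intro y hy
    obtain ⟨g, hg1, hg2⟩ := exists_sl hm (XX y) (YY y) (hOdet _ ((hBd y).1 hy))
    refine ⟨g, hg1, ?_⟩
    rw [← hg2, ← Matrix.mul_assoc, hγγ', Matrix.one_mul]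
  have hcovK : ∀ y ∈ B, ∃ γ, T γ y ∈ K := by
    intro y hy
    obtain ⟨g, hg1, hg2⟩ := hg y hy
    obtain ⟨γ, hγ, h, hh, hc⟩ := hCcov g
    have hf := hfix h⁻¹ (H.inv_mem hh)
    refine ⟨⟨γ, hγ⟩, (hKd _).2 ⟨γ * g * h, hc, (XX y)ᵀ * YY y, (hBd y).1 hy, ?_, ?_⟩⟩
    · rw [hTX, ← hg1, Matrix.SpecialLinearGroup.coe_mul, Matrix.mul_assoc, (hfix h hh).1,
        Matrix.SpecialLinearGroup.coe_mul, Matrix.mul_assoc]
    · rw [hTY, _root_.mul_inv_rev, _root_.mul_inv_rev, Matrix.SpecialLinearGroup.coe_mul,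
        Matrix.SpecialLinearGroup.coe_mul, Matrix.transpose_mul, Matrix.transpose_mul,
        Matrix.mul_assoc, ← Matrix.mul_assoc _ (bot m k) _, hf.2, Matrix.mul_assoc, hg2]
      rfl
  have hfinK : ∀ y ∈ B, {γ | T γ y ∈ K}.Finite := by
    intro y hy
    obtain ⟨g, hg1, hg2⟩ := hg y hy
    refine (hpd (C ∪ {g}) (hC.union isCompact_singleton)).subset ?_
    intro γ hγ
    obtain ⟨c, hc, a, ha, h1, h2⟩ := (hKd _).1 hγ
    have h3 : (XX y)ᵀ * YY y = a := by
      rw [← hP γ y, h1, h2, Matrix.transpose_mul, Matrix.mul_assoc,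
        ← Matrix.mul_assoc _ _ (bot m k * a), hγγ, Matrix.one_mul, ← Matrix.mul_assoc,
        bot_bot, Matrix.one_mul]
    have h4 : IsUnit a := (Matrix.isUnit_iff_isUnit_det a).2 (hOdet a ha).isUnit
    rw [hTX, ← hg1] at h1
    rw [hTY, ← hg2, h3] at h2
    refine ⟨g, Or.inr rfl, ((γ : SpecialLinearGroup (Fin (m + k)) ℝ) * g)⁻¹ * c, hstab _ ?_ ?_,
      Or.inl ?_⟩
    · rw [Matrix.SpecialLinearGroup.coe_mul, Matrix.mul_assoc, ← h1, ← Matrix.mul_assoc,
        ← Matrix.mul_assoc, Matrix.mul_assoc _ _ (g : Matrix (Fin (m + k)) (Fin (m + k)) ℝ),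
        ← Matrix.SpecialLinearGroup.coe_mul, ← Matrix.SpecialLinearGroup.coe_mul,
        inv_mul_cancel, Matrix.SpecialLinearGroup.coe_one, Matrix.one_mul]
    · have h5 : ((((γ : SpecialLinearGroup (Fin (m + k)) ℝ) * g)⁻¹ :
          SpecialLinearGroup (Fin (m + k)) ℝ) : Matrix (Fin (m + k)) (Fin (m + k)) ℝ)ᵀ * bot m k =
          ((c⁻¹ : SpecialLinearGroup (Fin (m + k)) ℝ) :
            Matrix (Fin (m + k)) (Fin (m + k)) ℝ)ᵀ * bot m k := by
        have h6 : ((((γ : SpecialLinearGroup (Fin (m + k)) ℝ) * g)⁻¹ :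
          SpecialLinearGroup (Fin (m + k)) ℝ) : Matrix (Fin (m + k)) (Fin (m + k)) ℝ)ᵀ *
            bot m k * a =
          ((c⁻¹ : SpecialLinearGroup (Fin (m + k)) ℝ) :
            Matrix (Fin (m + k)) (Fin (m + k)) ℝ)ᵀ * bot m k * a := by
          rw [_root_.mul_inv_rev, Matrix.SpecialLinearGroup.coe_mul, Matrix.transpose_mul,
            Matrix.mul_assoc, Matrix.mul_assoc, Matrix.mul_assoc _ (bot m k) a, ← h2]
          rfl
        obtain ⟨b, hb⟩ := h4.exists_right_inv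
        have h7 := congrArg (· * b) h6
        simp only [Matrix.mul_assoc, hb, Matrix.mul_one] at h7
        exact h7
      rw [Matrix.SpecialLinearGroup.coe_mul, Matrix.transpose_mul, Matrix.mul_assoc, h5,
        ← Matrix.mul_assoc, hγγ, Matrix.one_mul]
    · rw [mul_inv_cancel_left]
      exact hc
  obtain ⟨κ, hκ, hκ1, hκf⟩ := exists_weight (mu (m + k) k U) T (fun γ => (hTc γ).measurable) hTm B K
    hKc hcovK hfinK
  obtain ⟨c, hc, hcf⟩ := sc hk U hU
  refine no_scale (mu (m + k) k U) T ?_ hT1 hTm φ hφc.measurable hφT c hc ?_ B hBm ?_ ?_ κ hκ hκ1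
    hκf ?_
  · intro γ
    rw [hT]
    refine mp U (A γ) (hdet γ) _ ?_
    rw [Matrix.det_transpose]
    exact Matrix.SpecialLinearGroup.det_coe _
  · intro f hf
    rw [hφ]
    exact hcf f hf
  · intro γ y
    rw [hBd, hBd, hP]
  · intro y
    rw [hBd, hBd, hφP]
  · obtain ⟨y, hy⟩ := exists_dual U hkU
    have h1 : IsOpen ((fun y : EE (m + k) k U => (XX y)ᵀ * YY y) ⁻¹' interior O) :=
      isOpen_interior.preimage hPc
    have h2 : 0 < mu (m + k) k U ((fun y : EE (m + k) k U => (XX y)ᵀ * YY y) ⁻¹' interior O) :=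
      h1.measure_pos _ ⟨y, by rw [Set.mem_preimage, hy]; exact hO1⟩
    refine (lt_of_lt_of_le h2 (measure_mono ?_)).ne'
    intro z hz
    exact (hBd z).2 (interior_subset hz)

theorem det_clause {m k : ℕ} (hm : 0 < m) (hk : 0 < k)
    (ψ : SpecialLinearGroup (Fin m) ℝ →* SpecialLinearGroup (Fin (m + k)) ℝ)
    (hψ : ∀ (x : SpecialLinearGroup (Fin m) ℝ) (i j : Fin (m + k)),
      (ψ x : Matrix (Fin (m + k)) (Fin (m + k)) ℝ) i j = if h : (i : ℕ) < m ∧ (j : ℕ) < m then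
        (x : Matrix (Fin m) (Fin m) ℝ) ⟨i, h.1⟩ ⟨j, h.2⟩ else if i = j then 1 else 0)
    (Γ Γ₀ : Subgroup (SpecialLinearGroup (Fin (m + k)) ℝ))
    (hpd : ∀ K : Set (SpecialLinearGroup (Fin (m + k)) ℝ ⧸ ψ.range), IsCompact K →
      {γ : Γ | ∃ x ∈ K, γ • x ∈ K}.Finite)
    (hc : CompactSpace (MulAction.orbitRel.Quotient Γ
      (SpecialLinearGroup (Fin (m + k)) ℝ ⧸ ψ.range)))
    (hΓ : Γ₀ ≤ Γ) (hfin : Γ₀.relIndex Γ ≠ 0)
    (U : Submodule ℝ (Fin (m + k) → ℝ)) (hkU : k ≤ finrank ℝ U) (hU : finrank ℝ U < m + k)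
    (h : ∀ γ ∈ Γ₀, ∀ u ∈ U, (γ : Matrix (Fin (m + k)) (Fin (m + k)) ℝ) *ᵥ u ∈ U) :
    ∃ (γ : SpecialLinearGroup (Fin (m + k)) ℝ) (hγ : γ ∈ Γ₀),
      |LinearMap.det ((γ : Matrix (Fin (m + k)) (Fin (m + k)) ℝ).mulVecLin.restrict (h γ hγ))|
        ≠ 1 := by
  by_contra hno
  push Not at hno
  have := lc (m + k)
  refine det_core hm hk ψ.range Γ₀ ?_ (stab ψ hψ)
    (Pool.Agent.H9.IH.pd_lift ψ.range Γ Γ₀ hΓ hpd)
    (Pool.Agent.H9.IH.compact_lift ψ.range Γ Γ₀ hΓ hfin hc) U hkU hU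
    (fun γ => ((γ : SpecialLinearGroup (Fin (m + k)) ℝ) :
      Matrix (Fin (m + k)) (Fin (m + k)) ℝ).mulVecLin.restrict (h γ γ.2))
    (fun γ u => rfl) (fun γ => hno γ γ.2)
  rintro _ ⟨x, rfl⟩
  refine std_fix _ (fun i j hi => ?_) (fun i j hj => ?_)
  · rw [hψ, dif_neg (by omega)]
  · rw [hψ, dif_neg (by omega)]

end Pool.Agent.H9.JF
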