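import Mathlib

/-!
# Lebesgue measure on `U^k × (ℝ^n)^k`
-/

set_option autoImplicit false

open MeasureTheory ENNReal Matrix Module

namespace Pool.Agent.H9.JF

/-- `k` vectors of `U` and `k` vectors of `ℝ^n` -/
abbrev EE (n k : ℕ) (U : Submodule ℝ (Fin n → ℝ)) : Type :=
  (Fin k → U) × (Fin k → (Fin n → ℝ))

/-- the measure -/
noncomputable def mu (n k : ℕ) (U : Submodule ℝ (Fin n → ℝ)) : Measure (EE n k U) :=
  (Measure.pi fun _ : Fin k => (Measure.addHaar : Measure U)).prod volume

end Pool.Agent.H9.JF
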